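import Pool.Agent.TH818.AP.Mv
import Pool.Agent.TH818.AP.Pull

/-!
# Periods of algebraic fibres of products of Legendre families

The fibres of the family `E_{s_1} × ⋯ × E_{s_n}`, `E_s : y² = x(x-1)(x-s)`, over the algebraic points `s_j = φ_j(q_j)`, where `φ_j` is a
local inverse of a polynomial `ψ_j` over `ℚ` and `q_j` is rational: `ψ_j(s_j) = q_j`.
-/

set_option autoImplicit false

open Polynomial

namespace Pool.Agent.Results.MP_5591bc_ag.AlgebraicFibres

/-- Complete elliptic integral of the first kind, `K(t) = ∫_0^{π/2} dθ / √(1 - t sin² θ)`. -/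
noncomputable def K (t : ℝ) : ℝ := ∫ θ in (0 : ℝ)..(Real.pi / 2), 1 / √(1 - t * Real.sin θ ^ 2)

/-- Complete elliptic integral of the second kind, `E(t) = ∫_0^{π/2} √(1 - t sin² θ) dθ`. -/
noncomputable def E (t : ℝ) : ℝ := ∫ θ in (0 : ℝ)..(Real.pi / 2), √(1 - t * Real.sin θ ^ 2)

/-- The `3n + 1` numbers `π`, `K(s_j)`, `E(s_j)`, `K(1 - s_j)`. -/
noncomputable def periods {n : ℕ} (s : Fin n → ℝ) (x : Option (Fin n × Fin 3)) : ℝ :=
  match x with
  | none => Real.pi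
  | some (j, i) => ![K (s j), E (s j), K (1 - s j)] i

/-- The `n`-tuples `q` of rational numbers `q_j` in `[a_j, b_j]` with denominators at most `T` for which some nonzero
polynomial in `3n + 1` variables with integer coefficients of absolute value at most `T ^ A`, of degree at most `d` in each
variable, takes at the periods for `s_j = φ_j(q_j)` a value of absolute value at most `T ^ (-B)`. -/
def Exceptional (n d : ℕ) (φ : Fin n → ℝ → ℝ) (a b : Fin n → ℝ) (A B T : ℝ) : Set (Fin n → ℚ) :=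
  {q | (∀ j, a j ≤ q j ∧ q j ≤ b j ∧ ((q j).den : ℝ) ≤ T) ∧
    ∃ P : MvPolynomial (Option (Fin n × Fin 3)) ℤ, P ≠ 0 ∧ (∀ x, P.degreeOf x ≤ d) ∧
      (∀ s, |((P.coeff s : ℤ) : ℝ)| ≤ T ^ A) ∧
      |MvPolynomial.aeval (periods fun j => φ j (q j)) P| ≤ T ^ (-B)}

/-- Let `n ≥ 1`, `d`, `A ≥ 0` be given, and let `φ_j` be analytic on `[a_j, b_j]`, with values in `(0, 1)` and
`ψ_j(φ_j(t)) = t` for a polynomial `ψ_j` over `ℚ` (so that `φ_j(q)` is algebraic for rational `q`). For all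
`β > 2 - 2 / ((d + 1)^(3n + 1) + 1)` there are `B` and `C` such that for all `T ≥ 1` the number of exceptional `n`-tuples is at
most `C T^(2(n - 1) + β)`. -/
theorem result (n d : ℕ) (hn : 1 ≤ n) (φ : Fin n → ℝ → ℝ) (ψ : Fin n → ℚ[X]) (a b : Fin n → ℝ) (hab : ∀ j, a j < b j)
    (hφ : ∀ j, AnalyticOnNhd ℝ (φ j) (Set.Icc (a j) (b j)))
    (h01 : ∀ j t, a j ≤ t → t ≤ b j → 0 < φ j t ∧ φ j t < 1)
    (hψ : ∀ j t, a j ≤ t → t ≤ b j → aeval (φ j t) (ψ j) = t) (A β : ℝ) (hA : 0 ≤ A)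
    (hβ : 2 - 2 / (((d : ℝ) + 1) ^ (3 * n + 1) + 1) < β) :
    ∃ B C : ℝ, ∀ T : ℝ, 1 ≤ T → (Exceptional n d φ a b A B T).Finite ∧
      ((Exceptional n d φ a b A B T).ncard : ℝ) ≤ C * T ^ (2 * ((n : ℝ) - 1) + β) := by
  classical
  have hι : 0 < Fintype.card (Fin 3 → Fin (d + 1)) := Fintype.card_pos
  have hcard : (Fintype.card (Fin 3 → Fin (d + 1))) ^ n * Fintype.card (Fin (d + 1)) = (d + 1) ^ (3 * n + 1) := by
    simp only [Fintype.card_pi, Fintype.card_fin, Finset.prod_const, Finset.card_univ]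
    rw [← pow_mul, ← pow_succ]
  have hβ' : 2 * (((Fintype.card (Fin 3 → Fin (d + 1))) ^ n * Fintype.card (Fin (d + 1)) : ℕ) : ℝ) /
      ((((Fintype.card (Fin 3 → Fin (d + 1))) ^ n * Fintype.card (Fin (d + 1)) : ℕ) : ℝ) + 1) < β := by
    rw [hcard]
    refine lt_of_le_of_lt (le_of_eq ?_) hβ
    have hM0 : (0 : ℝ) < ((d : ℝ) + 1) ^ (3 * n + 1) := by positivity
    push_cast
    field_simp
    ring
  obtain ⟨B, C, h⟩ := TH818.AP.multi_gen hι _ (TH818.AP.goodConst_pi d) n hn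
    (fun j => fun (e : Fin 3 → Fin (d + 1)) (t : ℝ) => TH818.AP.g1 e (φ j t)) a b hab
    (fun j e t ht => (TH818.AP.g1_an e (φ j t) (h01 j t ht.1 ht.2).1 (h01 j t ht.1 ht.2).2).fun_comp (hφ j t ht))
    (fun j => TH818.AP.rindep_pull (fun e : Fin 3 → Fin (d + 1) => TH818.AP.g1 e) 0 1
      (fun c d' hc hcd hd => TH818.AP.g1_indep d c d' hc hcd hd) (a j) (b j) (hab j) (φ j) (hφ j).continuousOn
      (fun t ht => h01 j t ht.1 ht.2) ((ψ j).map (algebraMap ℚ ℝ)) (fun t ht => by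
        rw [eval_map_algebraMap]
        exact hψ j t ht.1 ht.2)) A β hA hβ'
  refine ⟨B, C, fun T hT => ?_⟩
  obtain ⟨hfin, hle⟩ := h T hT
  have hsub : Exceptional n d φ a b A B T ⊆
      TH818.AP.ExcM (fun j => fun (e : Fin 3 → Fin (d + 1)) (t : ℝ) => TH818.AP.g1 e (φ j t))
        (fun e : Fin (d + 1) => Real.pi ^ (e : ℕ)) a b A B T := by
    rintro q ⟨hq, P, hP0, hPd, hPc, hPs⟩
    refine ⟨fun j => ⟨⟨(hq j).1, (hq j).2.1⟩, (hq j).2.2⟩, fun e => P.coeff (TH818.AP.sOf2 e),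
      TH818.AP.coeff_ne2 P hP0 hPd, fun e => hPc _, ?_⟩
    rw [TH818.AP.aeval_eq2 _ P hPd] at hPs
    refine le_trans (le_of_eq ?_) hPs
    congr 1
    refine Finset.sum_congr rfl fun e _ => ?_
    congr 1
    simp only [TH818.AP.mono, TH818.AP.g1]
    congr 1
    refine Finset.prod_congr rfl fun j _ => ?_
    refine Finset.prod_congr rfl fun i _ => ?_
    congr 1
    fin_cases i
    · simp [TH818.AP.KC, periods, K, TH818.AR.KK]
    · simp [TH818.AP.KC, periods, E, TH818.AR.EE]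
    · simp [TH818.AP.KC, periods, K, TH818.AR.KK]
  refine ⟨hfin.subset hsub, le_trans ?_ hle⟩
  exact_mod_cast Set.ncard_le_ncard hsub hfin

end Pool.Agent.Results.MP_5591bc_ag.AlgebraicFibres
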